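import Pool.Agent.Q235.FD.PlanePencil

/-!
# The residue formula for Frobenius averages, in the half plane `Re s > 3 / 2`, for almost all linear systems of double planes whose
coefficients arise from arbitrary integers by changing a few digits

We consider the families `w ^ 2 = F_t(x, y, z)`, `t = (t₁, ..., t_m)`, `m ≥ 1`, of double planes over the affine space, branched along the
plane curves `F_t = 0` of degree `2 d`, `d ≥ 2`, through the point `(0 : 0 : 1)`, with the tangent `x = 0` there: families of del Pezzo
surfaces of degree 2 for `d = 2`, of K3 surfaces for `d = 3`, of surfaces of general type for `d ≥ 4`. The coefficients of the `F_t` are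
polynomials in `t` whose coefficients arise from arbitrary integers by changing a few digits at random positions. Let `B_p` be the average
of the traces of Frobenius on the second cohomology of the members. The residue formula says that the residue of
`F(s) = ∑ B_p log p p ^ (-s)` at `s = 2` is the rank of the Néron-Severi group of the generic member over the function field, which is
one if the coefficients are generic. We show for almost all choices of the positions that the sum of
`w_p (B_p - p) log p p ^ (-s)` over the primes `p` with `y < p ≤ x` is at most `(2 + |s|) y ^ (-δ / 4)`, for all complex `s` with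
`Re s ≥ 3 / 2 + δ`, all `w` in an arbitrary family of `y ^ B` weight functions with values in `[-1, 1]` and all `x` from `y` to
`exp (c r)`, where `r` is the number of the digits changed: the residue at `s = 2` is the one predicted, and no other singularity is seen
in the half plane `Re s > 3 / 2`.

The proof uses the law for functions of the residues of such tuples (library `TH894.NE`), Weil's bound on the lines through the
point (library `H341R2`), the independence of the values at two different points, and partial summation.
-/

set_option autoImplicit false

namespace Pool.Agent.Results.MP_6090f9_nt.FewDigitFamilies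

open Finset Pool.Agent.Q235.FD

/-- The sum over the primes `p` with `y < p ≤ x` of `w_p (B_p - p) log p p ^ (-s)`, where `B_p = familyTrace d p n` is the average of the
traces of Frobenius on the second cohomology of the members of the family with the coefficients `n`. -/
noncomputable def series {m E : ℕ} (d y x : ℕ) (n : Mon d × (Fin m → Fin (E + 1)) → ℕ) (w : ℕ → ℝ) (s : ℂ) : ℂ :=
  primeSum y x (fun p => (w p * (familyTrace d p n - p) * Real.log p : ℝ) * (p : ℂ) ^ (-s))

/-- For all `d ≥ 2`, numbers `m ≥ 1` of parameters, degrees `E ≥ 1` in each parameter, bases `b ≥ 2`, `δ > 0`, `A` and `B`, for almost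
all coefficient vectors `n` obtained by changing a few digits of arbitrary integers (`ForAlmostAllFrom`), uniformly in the family `θ` of
at most `y ^ B` weight functions: `|series d y x n w s| ≤ (2 + |s|) y ^ (-δ / 4)` for all `s` with `Re s ≥ 3 / 2 + δ`. -/
theorem result (d m E : ℕ) (hd : 2 ≤ d) (_hm : 1 ≤ m) (hE : 1 ≤ E) (b : ℕ) (hb : 2 ≤ b) (δ : ℝ) (hδ : 0 < δ) (A B : ℕ) :
    ForAlmostAllFrom (Mon d × (Fin m → Fin (E + 1))) b A (fun (θ : Weights B) y x n => ∀ w ∈ θ.W y, ∀ s : ℂ,
      3 / 2 + δ ≤ s.re → ‖series d y x n w s‖ ≤ (2 + ‖s‖) * (y : ℝ) ^ (-(δ / 4))) := by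
  classical
  obtain ⟨c, hc, y₀, H⟩ := family_series (m := m) hd hE hb hδ A B
  refine ⟨c, hc, y₀, fun θ K r N f y hset hy => le_trans (Nat.cast_le.2 (exceptions_mono ?_)) (H θ K r N f y hset hy)⟩
  intro n hn x hx hr w hw s hs
  have h1 := hn x hx hr w hw (s - 1) (by rw [Complex.sub_re, Complex.one_re]; linarith)
  have e : series d y x n w s = primeSum y x (fun p => ((w p * Real.log p * (familyTrace d p n / p - 1) : ℝ) : ℂ) * (p : ℂ) ^ (-(s - 1))) := by
    unfold series primeSum
    refine sum_congr rfl fun p hp => ?_
    beta_reduce
    have hpc : ((p : ℕ) : ℂ) ≠ 0 := by exact_mod_cast (mem_filter.1 hp).2.ne_zero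
    have e4 : ((p : ℕ) : ℂ) ^ (-(s - 1)) = (p : ℂ) ^ (-s) * p := by
      rw [show -(s - 1) = -s + 1 by ring, Complex.cpow_add _ _ hpc, Complex.cpow_one]
    rw [e4]
    push_cast
    field_simp
  rw [e]
  refine h1.trans (mul_le_mul_of_nonneg_right ?_ (by positivity))
  have := norm_sub_le s 1
  rw [norm_one] at this
  linarith

end Pool.Agent.Results.MP_6090f9_nt.FewDigitFamilies
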