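import Pool.Agent.Q11.MS.Final

/-!
# The residue formula for Frobenius averages in fibrations and the mean squares

`f : 𝒳 → 𝒴` is a fibration over a number field `K`, given over an affine open part of `𝒴` over which the
fibres are smooth, and `W` is the space `NS(X / K̄(𝒴)) ⊗ ℚ` with the action of the absolute Galois group
of `K`, for the generic fibre `X`.  For a number field `F ⊇ K` the rank of `NS(X / F(𝒴))` is
`dim W^{Gal(K̄/F)}`, and Q1 for `f` over `F` says that the residue at `s = 2` of the Dirichlet series
`F(s) = ∑ 𝔅_v (log q_v) q_v^{-s}` over the primes `v` of `F` is this rank.  With the values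
`z_v = 𝔅_v / q_v`, `(s - 1) ∑ z_v (log q_v) q_v^{-s}` is the value of `(s' - 2) F(s')` at `s' = s + 1`.
`T_v = z_v - tr(Frob_v | W)` is the trace on the transcendental part, up to `O(q_v^{-1/2})`.
The definitions are in `Pool.Agent.Q11.MS.Defs`, `Pool.Agent.W353.FB.Defs`, `Pool.Agent.W353.SP.Defs`,
`Pool.Agent.W353.AT.TDefs`, `Pool.Agent.W353.AT.Defs` and `Pool.Agent.W353.TD.Defs`.
-/

set_option autoImplicit false

namespace Pool.Agent.Results.MP_6090f9_nt.MeanSquares

open NumberField Pool.Agent.W353.FB Pool.Agent.Q11.MS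

/-- **The residues of a fibration over all number fields and the mean squares.**  Let `W` be a part
of the values `z_v = 𝔅_v / q_v` of the fibration `f`, given by `N` numbers of absolute value `≤ 1`,
`T_v = z_v - tr(Frob_v | W)` and `s = N - dim W`.  Every sequence `s_j → 1+` has a subsequence along which
`(s - 1) ∑ z_v (log q_v) q_v^{-s}` and `(s - 1) ∑ T_v² (log q_v) q_v^{-s}` converge over all number fields
`F ⊇ K`, and with the weights `Re χ(Frob_v)` over `K` for all Artin representations `χ` of `K` (no
continuation is assumed).  Let `dim W^{Gal(K̄/F)} - δ_F`, `r_F`, `dim (W ⊗ χ)^{Gal(K̄/K)} - y_χ` and `q_χ` be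
the limits.  Then
* `∑ y_χ² ≤ q_1`, the sum over the irreducible `χ`, where `1` is the trivial representation, so that
  `q_1` is the mean square of `T_v` over `K`;
* for every finite Galois extension `M` of `K` the class functions `θ = ∑ y_χ χ` and `Θ = ∑ q_χ χ` on
  `Gal(M/K)`, the sums over the irreducible `χ` of `Gal(M/K)`, satisfy `|θ(g)|² ≤ Re Θ(g) ≤ s²` for
  all `g`;
* `δ_F² ≤ r_F ≤ s²`, `δ_F = ∑ y_χ dim χ^{Gal(K̄/F)}` and `r_F = ∑ q_χ dim χ^{Gal(K̄/F)}` for all number
  fields `F ⊇ K`, of any degree;
* for all `c` and `η > 0` there is a finite Galois extension `M` of `K` with `|δ_F - δ_{F ∩ M}| < η` for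
  all number fields `F ⊇ K` of degree at most `c`, and the same for `r`. -/
theorem result (K : Type) [Field K] [NumberField K] (f : Fibration K) (N : ℕ)
    (W : Type) [AddCommGroup W] [Module ℚ W] [FiniteDimensional ℚ W]
    (ρ : Representation ℚ Gal(AlgebraicClosure K/K) W)
    (hW : IsPartOf (degreeTwoValue f) N ρ) : AnalyticSquares (degreeTwoValue f) N ρ :=
  analytic (degreeTwo_uniq f) hW

end Pool.Agent.Results.MP_6090f9_nt.MeanSquares
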