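import Pool.Agent.Q190.NP.Ser

/-!
# The residue formula for Frobenius averages, in the half plane `Re s > 3 / 2`, for ALL families of double planes whose coefficients
lie in windows near powers with non-integral exponents

We consider the families `w ^ 2 = F_t(x, y, z)`, `t = (t₁, ..., t_m)`, `m ≥ 1`, of double planes over the affine space, branched along
the plane curves `F_t = 0` of degree `2 d`, `d ≥ 2`, through the point `(0 : 0 : 1)`, with the tangent `x = 0` there (K3 surfaces for
`d = 3`). The coefficients of the `F_t` are polynomials in `t` whose coefficients are ARBITRARY integers in the windows of length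
`y ^ V` around the real numbers `β l + ω l * i (μ l) ^ ex l`, where `i` runs through `{1, ..., x} ^ dm`, the exponents `ex l > 1` are
not integers, and two coordinates which depend on the same index have different exponents (for instance `dm = 1`: a one-parameter
sequence of points in the space of all coefficients). Let `B_p` be the average of the traces of Frobenius on the second cohomology of
the members. The residue formula says that the residue of `∑ B_p log p p ^ (-s)` at `s = 2` is the rank of the Néron-Severi group of the
generic member, which is one if the coefficients are generic. We show for almost all index vectors and ALL coefficients in the windows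
that the sum of `w_p (B_p - p) log p p ^ (-s)` over the primes `p` with `y < p ≤ z` is at most `(2 + |s|) y ^ (-δ / 4)`, for all complex
`s` with `Re s ≥ 3 / 2 + δ`, all `w` in an arbitrary family of `y ^ B` weight functions with values in `[-1, 1]` and all `z` from `y` to
`x ^ c`.
-/

set_option autoImplicit false

namespace Pool.Agent.Results.MP_6090f9_nt.NearPowers

open Finset Pool.Agent.Q56.WL
open Pool.Agent.Q235.FD (Mon Weights primeSum familyTrace)

/-- The sum over the primes `p` with `y < p ≤ x` of `w_p (B_p - p) log p p ^ (-s)`, where `B_p = familyTrace d p n` is the average of the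
traces of Frobenius on the second cohomology of the members of the family with the coefficients `n`. -/
noncomputable def series {m E : ℕ} (d y x : ℕ) (n : Mon d × (Fin m → Fin (E + 1)) → ℕ) (w : ℕ → ℝ) (s : ℂ) : ℂ :=
  primeSum y x (fun p => (w p * (familyTrace d p n - p) * Real.log p : ℝ) * (p : ℂ) ^ (-s))

/-- For all `d ≥ 2`, numbers `m ≥ 1` of parameters, degrees `E ≥ 1` in each parameter, exponents, coefficients and maps as in `Setting`,
`δ > 0`, `A`, `V` and `B`, for almost all index vectors and ALL coefficient vectors `n` in the windows (`ForAlmostAllFrom`), uniformly in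
the shifts and in the family `θ` of at most `y ^ B` weight functions: `|series d y x n w s| ≤ (2 + |s|) y ^ (-δ / 4)` for all `s` with
`Re s ≥ 3 / 2 + δ`. -/
theorem result (d m E : ℕ) (hd : 2 ≤ d) (_hm : 1 ≤ m) (hE : 1 ≤ E) (dm : ℕ) (ex ω : Mon d × (Fin m → Fin (E + 1)) → ℝ)
    (μ : Mon d × (Fin m → Fin (E + 1)) → Fin dm) (hset : Setting ex ω μ) (δ : ℝ) (hδ : 0 < δ) (A V B : ℕ) :
    ForAlmostAllFrom ex ω μ A V (fun (θ : Weights B) y x n => ∀ w ∈ θ.W y, ∀ s : ℂ,
      3 / 2 + δ ≤ s.re → ‖series d y x n w s‖ ≤ (2 + ‖s‖) * (y : ℝ) ^ (-(δ / 4))) := by
  classical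
  refine (Pool.Agent.Q190.NP.family_series_near (m := m) hd hE hset hδ A V B).mono ?_
  intro θ y x n hx hn w hw s hs
  have h1 := hn w hw (s - 1) (by rw [Complex.sub_re, Complex.one_re]; linarith)
  have e : series d y x n w s = primeSum y x (fun p => ((w p * Real.log p * (familyTrace d p n / p - 1) : ℝ) : ℂ) * (p : ℂ) ^ (-(s - 1))) := by
    unfold series primeSum
    refine sum_congr rfl fun p hp => ?_
    beta_reduce
    have hpc : ((p : ℕ) : ℂ) ≠ 0 := by exact_mod_cast (mem_filter.1 hp).2.ne_zero
    have e4 : ((p : ℕ) : ℂ) ^ (-(s - 1)) = (p : ℂ) ^ (-s) * p := by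
      rw [show -(s - 1) = -s + 1 by ring, Complex.cpow_add _ _ hpc, Complex.cpow_one]
    rw [e4]
    push_cast
    field_simp
  rw [e]
  refine h1.trans (mul_le_mul_of_nonneg_right ?_ (by positivity))
  have := norm_sub_le s 1
  rw [norm_one] at this
  linarith

end Pool.Agent.Results.MP_6090f9_nt.NearPowers
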