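import Pool.Agent.Y707.SF.Fin

/-!
# The residue formula for linear pencils of surfaces with a hyperelliptic fibration

`V` is the variety of the points `(x, y)` with `y_i ^ 2 = G_i(x)`, over the number field `K`, for
polynomials `G_i` in `k` variables such that no product of some of them is a constant times a square.
The base of the fibration is `V × 𝔸¹`, with the coordinate `w` of the line.  The fibre over a point is
the smooth projective surface `Y ^ 2 = a(x, t, X) + w ∏ (X - α_j(x, t))`, a double cover of the
Hirzebruch surface `F_{2n}`, fibred over the projective `t`-line in curves of genus `g`: for `g = 1` the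
fibres are all kinds of Weierstrass elliptic surfaces, rational for `n = 1`, K3 for `n = 2`, and of
geometric genus `n - 1` in general.  Here `a` is monic of degree `2 g + 1` in `X` and there are at most
`2 g` sections `X = α_j(x, t)`.

`𝔅_v` is the fibre average of the traces of the Frobenius on `H²` at the prime `v` of a number field
`E ⊇ K`, over the points `(x, y, w)` of the base with `y_i ≠ 0` and smooth fibre.
The definitions are in `Pool.Agent.Y707.SF.Defs`, `Pool.Agent.Y707.SF.Dt`, `Pool.Agent.Y707.PR.Sys`,
`Pool.Agent.Y707.PC.Fin`, `Pool.Agent.Y707.PC.Pen` and `Pool.Agent.Y707.PC.Csq`.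
-/

set_option autoImplicit false
set_option maxHeartbeats 400000

namespace Pool.Agent.Results.MP_6090f9_nt.SurfacePencils

open Polynomial NumberField IsDedekindDomain Pool.Agent.Y707.SF
open Pool.Agent.Y707.PR (HasResidue)
open Pool.Agent.Y707.PC (IsFunctionField exists_field)

/-- **The residue formula for pencils of surfaces.**  Let `X` be the generic surface of the pencil over
the function field `M(w)`, where `M = E(V)`, for any number field `E ⊇ K`.  The series
`∑ 𝔅_v (log q_v) q_v^{-s}` over the primes of `E` has the residue `m + 2` at `s = 2`, and the
Néron-Severi group of `X` over `M(w)` has rank `m + 2`, where `m` is the number of the `j` for which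
`a(t, α_j(t))` is a square in `E(V)(t)`. -/
theorem result (K : Type) [Field K] [NumberField K] (k l r g n : ℕ)
    (G : Fin l → MvPolynomial (Fin k) (𝓞 K)) (a : (MvPolynomial (Fin k) (𝓞 K))[X][X])
    (α : Fin r → (MvPolynomial (Fin k) (𝓞 K))[X]) (h : IsSurfacePencil g n G a α)
    (E : IntermediateField K (AlgebraicClosure K)) [NumberField E] :
    -- the analytic side: the residue at `s = 2` of the series of the averages `𝔅_v`
    (∀ R : Finset (HeightOneSpectrum (𝓞 E)), HasResidue R
      (fun v => averageTwo g n G a α
        ((Ideal.Quotient.mk v.asIdeal).comp (algebraMap (𝓞 K) (𝓞 E)))) 2 (classes G a α E + 2)) ∧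
    -- the algebraic side: the Néron-Severi rank over `M(w)`, for the function field `M` of `V` over `E`
    (∀ (M : Type) [Field M] [Algebra E M] (ξ : Fin k → M) (η : Fin l → M),
      IsFunctionField G E ξ η → IsSmoothSurface g n (genericSurface a α E ξ) ∧
        PicardRankAddTwo (genericSurface a α E ξ) (classes G a α E)) ∧
    -- the function field exists
    (∃ (M : Type) (_ : Field M) (_ : Algebra E M) (ξ : Fin k → M) (η : Fin l → M),
      IsFunctionField G E ξ η) :=
  ⟨fun R => surface_residue h E R, fun _ _ _ _ _ hM => surface_algebraic h E hM,
    exists_field G E⟩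

end Pool.Agent.Results.MP_6090f9_nt.SurfacePencils
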